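import Pool.Agent.Work.MP_7453a1_lh.All

set_option autoImplicit false

/-!
Best approximations in all dimensions: lower bounds for all norms, upper bounds for the sup norms.
-/

namespace Pool.Agent.Results.MP_7453a1_nt.AllDimensions

open Pool.Agent.Work.MP_7453a1_nt_norm (IsNorm)
open Pool.Agent.Work.MP_7453a1_nt_two (Admissible Lengths G g)

/-- For all `m, n ≥ 1` and all norms, `G(Θ) ≥ 2 ^ (1 / (2 ^ (m + n - 1) 3 ^ m))` and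
`G(Θ) ≥ 2 ^ (1 / (8 m ^ 2 2 ^ (m + n - 1) 3 ^ n))` if `Θ` has infinitely many best approximation lengths (for
`m = 1` or `n = 1` this follows from (∗)), for the sup norms with `2 ^ m`, `2 ^ n` in place of `3 ^ m`, `3 ^ n`.
For the sup norms `g ≤ exp (250 (m + n) ^ 8 / 2 ^ (m + n))`, also for a `Θ` with infinitely many lengths.
With `N = max m n`, for `m = 1` or `n = 1`, `g ≥ 2 ^ (1 / (24 N ^ 2 2 ^ N))` for all norms, and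
`g ≤ exp (50 N ^ 3 / 2 ^ N)` for the sup norms. -/
theorem result (m n : ℕ) (hm : 1 ≤ m) (hn : 1 ≤ n) :
    (∀ (Nm : Seminorm ℝ (Fin m → ℝ)) (Nn : Seminorm ℝ (Fin n → ℝ)), IsNorm Nm → IsNorm Nn →
      (∀ Θ : Matrix (Fin n) (Fin m) ℝ, (Lengths Nm Nn Θ).Infinite →
        ENNReal.ofReal ((2 : ℝ) ^ (1 / ((2 : ℝ) ^ (m + n - 1) * 3 ^ m))) ≤ G Nm Nn Θ ∧
        ENNReal.ofReal ((2 : ℝ) ^ (1 / (8 * (m : ℝ) ^ 2 * (2 ^ (m + n - 1) * 3 ^ n)))) ≤ G Nm Nn Θ) ∧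
      (m = 1 ∨ n = 1 →
        (∀ Θ : Matrix (Fin n) (Fin m) ℝ, Admissible Θ → (Lengths Nm Nn Θ).Infinite) ∧
        ENNReal.ofReal ((2 : ℝ) ^ (1 / (24 * (max m n : ℝ) ^ 2 * 2 ^ (max m n)))) ≤ g Nm Nn) ∧
      (m = 1 → ENNReal.ofReal ((3 : ℝ) ^ (1 / (2 : ℝ) ^ (n + 1))) ≤ g Nm Nn)) ∧
    (∀ (Nm : Seminorm ℝ (Fin m → ℝ)) (Nn : Seminorm ℝ (Fin n → ℝ)), (∀ x, Nm x = ‖x‖) → (∀ x, Nn x = ‖x‖) →
      IsNorm Nm ∧ IsNorm Nn ∧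
      (∀ Θ : Matrix (Fin n) (Fin m) ℝ, (Lengths Nm Nn Θ).Infinite →
        ENNReal.ofReal ((2 : ℝ) ^ (1 / (2 : ℝ) ^ (2 * m + n - 1))) ≤ G Nm Nn Θ ∧
        ENNReal.ofReal ((2 : ℝ) ^ (1 / (8 * (m : ℝ) ^ 2 * 2 ^ (m + 2 * n - 1)))) ≤ G Nm Nn Θ) ∧
      g Nm Nn ≤ ENNReal.ofReal (Real.exp (250 * ((m : ℝ) + n) ^ 8 / 2 ^ (m + n))) ∧
      (∃ Θ : Matrix (Fin n) (Fin m) ℝ, Admissible Θ ∧ (Lengths Nm Nn Θ).Infinite ∧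
        G Nm Nn Θ ≤ ENNReal.ofReal (Real.exp (250 * ((m : ℝ) + n) ^ 8 / 2 ^ (m + n)))) ∧
      (m = 1 ∨ n = 1 →
        g Nm Nn ≤ ENNReal.ofReal (Real.exp (50 * (max m n : ℝ) ^ 3 / 2 ^ (max m n))) ∧
        ∃ Θ : Matrix (Fin n) (Fin m) ℝ, Admissible Θ ∧
          G Nm Nn Θ ≤ ENNReal.ofReal (Real.exp (50 * (max m n : ℝ) ^ 3 / 2 ^ (max m n))))) :=
  Pool.LH.joint6 Pool.LH.q_FIH m n hm hn

end Pool.Agent.Results.MP_7453a1_nt.AllDimensions
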