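import Pool.Agent.Work.MP_7453a1_ch.All
import Pool.Agent.Work.MP_7453a1_st.Main

set_option autoImplicit false

/-!
Arbitrary norms for `m + n = 3`: Lagarias's conjecture, and the norms with the least value of `g`.
-/

namespace Pool.Agent.Results.MP_7453a1_nt.LagariasThree

open Pool.Agent.Work.MP_7453a1_nt_two
open Pool.Agent.Work.MP_7453a1_nt_norm (IsNorm)

/-- The norm `N` differs from a Euclidean norm `|A x|` by at most a factor `d` with `d ^ 2 < ρ`. -/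
def NearEuclid {k : ℕ} (ρ : ℝ) (N : Seminorm ℝ (Fin k → ℝ)) : Prop :=
  ∃ (A : (Fin k → ℝ) →ₗ[ℝ] (Fin k → ℝ)) (d : ℝ), d ^ 2 < ρ ∧
    ∀ x, N x ^ 2 ≤ ∑ i, A x i ^ 2 ∧ ∑ i, A x i ^ 2 ≤ d ^ 2 * N x ^ 2

/-- The norm is the maximum of the absolute values of two linear forms. -/
def TwoForms {k : ℕ} (N : Seminorm ℝ (Fin k → ℝ)) : Prop :=
  ∃ f g : (Fin k → ℝ) →ₗ[ℝ] ℝ, ∀ x, N x = max |f x| |g x|

/-- The norm decreases under some linear map `T` with `T³ = T + 1`. -/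
def Decreases {k : ℕ} (N : Seminorm ℝ (Fin k → ℝ)) : Prop :=
  ∃ T : (Fin k → ℝ) →ₗ[ℝ] (Fin k → ℝ), (∀ x, T (T (T x)) = T x + x) ∧ ∀ x, x ≠ 0 → N (T x) < N x

/-- The norm does not increase under some linear map `T` with `T³ = T + 1`. -/
def DoesNotIncrease {k : ℕ} (N : Seminorm ℝ (Fin k → ℝ)) : Prop :=
  ∃ T : (Fin k → ℝ) →ₗ[ℝ] (Fin k → ℝ), (∀ x, T (T (T x)) = T x + x) ∧ ∀ x, N (T x) ≤ N x

/-- The norm differs from the maximum of the absolute values of two linear forms by at most a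
factor `1.2246`. -/
def NearTwoForms {k : ℕ} (N : Seminorm ℝ (Fin k → ℝ)) : Prop :=
  ∃ f g : (Fin k → ℝ) →ₗ[ℝ] ℝ, ∀ x, max |f x| |g x| ≤ N x ∧ N x ≤ 1.2246 * max |f x| |g x|

lemma twoForms_two : TwoForms (normSeminorm ℝ (Fin 2 → ℝ)) := by
  refine ⟨LinearMap.proj 0, LinearMap.proj 1, fun x => ?_⟩
  simp only [coe_normSeminorm, LinearMap.proj_apply]
  refine le_antisymm ?_ ?_
  · refine (pi_norm_le_iff_of_nonneg (le_max_of_le_left (abs_nonneg _))).mpr fun i => ?_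
    fin_cases i
    · exact le_max_left _ _
    · exact le_max_right _ _
  · exact max_le (norm_le_pi_norm x 0) (norm_le_pi_norm x 1)

lemma isNorm_sup (k : ℕ) : IsNorm (normSeminorm ℝ (Fin k → ℝ)) := by
  intro x hx
  simpa using hx

/-- The Euclidean norm. -/
noncomputable def Eu (k : ℕ) : Seminorm ℝ (Fin k → ℝ) :=
  (normSeminorm ℝ (EuclideanSpace ℝ (Fin k))).comp
    (WithLp.linearEquiv 2 ℝ (Fin k → ℝ)).symm.toLinearMap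

lemma Eu_sq (k : ℕ) (x : Fin k → ℝ) : Eu k x ^ 2 = ∑ i, x i ^ 2 := by
  have h : Eu k x = √(∑ i, x i ^ 2) := by
    show ‖(WithLp.linearEquiv 2 ℝ (Fin k → ℝ)).symm x‖ = _
    rw [EuclideanSpace.norm_eq]
    simp
  rw [h, Real.sq_sqrt (Finset.sum_nonneg fun i _ => sq_nonneg _)]

lemma isNorm_Eu (k : ℕ) : IsNorm (Eu k) := by
  intro x hx
  have h := Eu_sq k x
  rw [hx, zero_pow (by norm_num)] at h
  have h2 := (Finset.sum_eq_zero_iff_of_nonneg (fun i _ => sq_nonneg (x i))).mp h.symm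
  ext i
  exact pow_eq_zero_iff (by norm_num) |>.mp (h2 i (Finset.mem_univ i))

lemma near_Eu {ρ : ℝ} (hρ : 1 < ρ) (k : ℕ) : NearEuclid ρ (Eu k) :=
  ⟨LinearMap.id, 1, by simpa using hρ, fun x => by simp [Eu_sq]⟩

lemma one_lt_rho {ρ : ℝ} (hρ : ρ ^ 3 = ρ + 1) : 1 < ρ := by
  have := (Pool.Agent.Work.MP_7453a1_nt.rho_bounds hρ).1
  norm_num at this
  linarith

/-- The upper bound with the exponent one. -/
theorem up_one {ρ : ℝ} (hρ : ρ ^ 3 = ρ + 1) {N : Seminorm ℝ (Fin 2 → ℝ)} (hN : IsNorm N)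
    (h : NearEuclid ρ N ∨ Decreases N) : Pool.GI.Up ρ 1 N := by
  rcases h with h | ⟨T, h1, h2⟩
  · exact Pool.GI.upper_near hρ hN h
  · exact Pool.Agent.Work.MP_7453a1_ch.up_of_strict hρ hN T h1 h2

section

variable {m n : ℕ} {Nm : Seminorm ℝ (Fin m → ℝ)} {Nn : Seminorm ℝ (Fin n → ℝ)} {ρ : ℝ}

/-- The lower bound for all norms. -/
theorem lower (hρ : ρ ^ 3 = ρ + 1) (hm : 1 ≤ m) (hn : 1 ≤ n) (hmn : m + n = 3)
    (hNm : IsNorm Nm) (hNn : IsNorm Nn) :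
    ∀ Θ : Matrix (Fin n) (Fin m) ℝ, Admissible Θ →
      ENNReal.ofReal (ρ ^ (1 / (m : ℝ))) ≤ G Nm Nn Θ ∧ (Lengths Nm Nn Θ).Infinite ∧
      (∃ c : ℝ, 0 < c ∧ ∀ ν : ℕ, 1 ≤ ν → c * (ρ ^ (1 / (m : ℝ))) ^ ν ≤ M Nm Nn Θ ν) ∧
      (m = 1 → ∃ ν₀ : ℕ, 1 ≤ ν₀ ∧ ∀ ν, ν₀ ≤ ν →
        M Nm Nn Θ (ν + 2) + M Nm Nn Θ ν ≤ M Nm Nn Θ (ν + 4)) := by
  have hρ1 := (one_lt_rho hρ).le
  obtain ⟨rfl, rfl⟩ | ⟨rfl, rfl⟩ : (m = 1 ∧ n = 2) ∨ (m = 2 ∧ n = 1) := by omega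
  · have e : ρ ^ (1 / ((1 : ℕ) : ℝ)) = ρ := by simp
    rw [e]
    intro Θ hΘ
    obtain ⟨k1, k2⟩ := Pool.Agent.Work.MP_7453a1_an.low_one hρ hρ1 hNn hNm hΘ
    refine ⟨k2, ?_, k1, fun _ => ?_⟩
    · have hk := N1_pos hNm
      have h1 := Pool.Agent.Work.MP_7453a1_nt_norm.infinite hNn (adm12.mp hΘ)
      refine (h1.image (f := fun k : ℕ => (k : ℝ) * Nm (fun _ => 1)) ?_).mono ?_
      · intro a _ b _ hab
        have h2 := mul_right_cancel₀ hk.ne' hab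
        exact_mod_cast h2
      · rintro r ⟨k, hk1, rfl⟩
        exact (lengths12 hNm _).mpr ⟨k, hk1, rfl⟩
    · obtain ⟨ν₀, z, h0, h1, hz⟩ :=
        Pool.Agent.Work.MP_7453a1_nt_h45.exists_frame hNn (adm12.mp hΘ)
      refine ⟨ν₀, h0, fun ν hν => ?_⟩
      obtain ⟨k, rfl⟩ : ∃ k, ν = ν₀ + k := ⟨ν - ν₀, by omega⟩
      obtain ⟨j, rfl⟩ : ∃ j, ν₀ = j + 1 := ⟨ν₀ - 1, by omega⟩
      have h2 := hz.four k
      rw [h1, h1, h1, ← add_assoc, ← add_assoc] at h2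
      have h3 : ((Pool.Agent.Work.MP_7453a1_nt_norm.M Nn (col Θ) (j + 1 + k) : ℕ) : ℝ)
          + Pool.Agent.Work.MP_7453a1_nt_norm.M Nn (col Θ) (j + 1 + k + 2)
          ≤ Pool.Agent.Work.MP_7453a1_nt_norm.M Nn (col Θ) (j + 1 + k + 4) := by
        exact_mod_cast h2
      have hk := N1_pos hNm
      have e1 : j + 1 + k = (j + k) + 1 := by ring
      have e2 : j + 1 + k + 2 = (j + k + 2) + 1 := by ring
      have e3 : j + 1 + k + 4 = (j + k + 4) + 1 := by ring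
      rw [e2, e3, e1] at h3
      rw [e2, e3, e1, M12 hNn hNm hΘ (j + k + 2), M12 hNn hNm hΘ (j + k), M12 hNn hNm hΘ (j + k + 4)]
      have h4 := mul_le_mul_of_nonneg_right h3 hk.le
      linarith
  · have e : ρ ^ (1 / ((2 : ℕ) : ℝ)) = √ρ := by
      rw [Real.sqrt_eq_rpow]; norm_num
    rw [e]
    intro Θ hΘ
    obtain ⟨k1, k2⟩ := Pool.Agent.Work.MP_7453a1_an.low_two hρ hρ1 hNm hNn hΘ
    exact ⟨k2, infinite_lengths hNm hNn hΘ, k1, fun h => absurd h (by norm_num)⟩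

/-- The lower bound for parallelogram norms. -/
theorem lower_par (hm : 1 ≤ m) (hn : 1 ≤ n) (hmn : m + n = 3) (hNm : IsNorm Nm)
    (hNn : IsNorm Nn) (h1 : m = 2 → TwoForms Nm) (h2 : n = 2 → TwoForms Nn) :
    ENNReal.ofReal ((1337 / 1000) ^ (1 / (m : ℝ))) ≤ g Nm Nn := by
  obtain ⟨rfl, rfl⟩ | ⟨rfl, rfl⟩ : (m = 1 ∧ n = 2) ∨ (m = 2 ∧ n = 1) := by omega
  · have e : (1337 / 1000 : ℝ) ^ (1 / ((1 : ℕ) : ℝ)) = 1337 / 1000 := by simp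
    rw [e]
    obtain ⟨f, g', hfg⟩ := h2 rfl
    exact le_iInf₂ fun Θ hΘ => Pool.Agent.Work.MP_7453a1_st.low_one hNn hNm hfg hΘ
  · have e : (1337 / 1000 : ℝ) ^ (1 / ((2 : ℕ) : ℝ)) = √(1337 / 1000) := by
      rw [Real.sqrt_eq_rpow]; norm_num
    rw [e]
    obtain ⟨f, g', hfg⟩ := h1 rfl
    exact le_iInf₂ fun Θ hΘ => Pool.Agent.Work.MP_7453a1_st.low_two hNm hNn hfg hΘ

/-- The upper bounds. -/
theorem upper (hρ : ρ ^ 3 = ρ + 1) (hm : 1 ≤ m) (hn : 1 ≤ n) (hmn : m + n = 3)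
    (hNm : IsNorm Nm) (hNn : IsNorm Nn) :
    (∃ Θ : Matrix (Fin n) (Fin m) ℝ, Admissible Θ ∧
      G Nm Nn Θ ≤ ENNReal.ofReal (ρ ^ (38 / 25 / (m : ℝ)))) ∧
    ((m = 2 → NearEuclid ρ Nm ∨ Decreases Nm) → (n = 2 → NearEuclid ρ Nn ∨ Decreases Nn) →
      ∃ Θ : Matrix (Fin n) (Fin m) ℝ, Admissible Θ ∧
        G Nm Nn Θ ≤ ENNReal.ofReal (ρ ^ (1 / (m : ℝ)))) ∧
    ((m = 2 → TwoForms Nm) → (n = 2 → TwoForms Nn) →
      ∃ Θ : Matrix (Fin n) (Fin m) ℝ, Admissible Θ ∧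
        G Nm Nn Θ ≤ ENNReal.ofReal (ρ ^ (7 / 5 / (m : ℝ)))) := by
  obtain ⟨rfl, rfl⟩ | ⟨rfl, rfl⟩ : (m = 1 ∧ n = 2) ∨ (m = 2 ∧ n = 1) := by omega
  · have e1 : (38 : ℝ) / 25 / ((1 : ℕ) : ℝ) = 38 / 25 := by norm_num
    have e2 : (1 : ℝ) / ((1 : ℕ) : ℝ) = 1 := by norm_num
    have e3 : (7 : ℝ) / 5 / ((1 : ℕ) : ℝ) = 7 / 5 := by norm_num
    rw [e1, e2, e3]
    exact ⟨(Pool.GI.upper_all hρ hNn Nm hNm).1,
      fun _ h => (up_one hρ hNn (h rfl) Nm hNm).1,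
      fun _ h => (Pool.GI.upper_par hρ hNn (h rfl) Nm hNm).1⟩
  · have e1 : (38 : ℝ) / 25 / ((2 : ℕ) : ℝ) = 38 / 25 / 2 := by norm_num
    have e2 : (1 : ℝ) / ((2 : ℕ) : ℝ) = 1 / 2 := by norm_num
    have e3 : (7 : ℝ) / 5 / ((2 : ℕ) : ℝ) = 7 / 5 / 2 := by norm_num
    rw [e1, e2, e3]
    exact ⟨(Pool.GI.upper_all hρ hNm Nn hNn).2,
      fun h _ => (up_one hρ hNm (h rfl) Nn hNn).2,
      fun h _ => (Pool.GI.upper_par hρ hNm (h rfl) Nn hNn).2⟩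

/-- The norms with the least value of `g`. -/
theorem converse (hρ : ρ ^ 3 = ρ + 1) (hm : 1 ≤ m) (hn : 1 ≤ n) (hmn : m + n = 3)
    (hNm : IsNorm Nm) (hNn : IsNorm Nn) (h : g Nm Nn = ENNReal.ofReal (ρ ^ (1 / (m : ℝ)))) :
    (m = 2 → DoesNotIncrease Nm) ∧ (n = 2 → DoesNotIncrease Nn) := by
  have hρ1 := (one_lt_rho hρ).le
  obtain ⟨rfl, rfl⟩ | ⟨rfl, rfl⟩ : (m = 1 ∧ n = 2) ∨ (m = 2 ∧ n = 1) := by omega
  · have e : ρ ^ (1 / ((1 : ℕ) : ℝ)) = ρ := by simp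
    rw [e] at h
    exact ⟨fun h0 => absurd h0 (by norm_num),
      fun _ => Pool.Agent.Work.MP_7453a1_ch.nec_one hρ hρ1 hNn hNm h.le⟩
  · have e : ρ ^ (1 / ((2 : ℕ) : ℝ)) = √ρ := by
      rw [Real.sqrt_eq_rpow]; norm_num
    rw [e] at h
    exact ⟨fun _ => Pool.Agent.Work.MP_7453a1_ch.nec_two hρ hρ1 hNm hNn h.le,
      fun h0 => absurd h0 (by norm_num)⟩

/-- Norms close to a parallelogram norm. -/
theorem larger (hρ : ρ ^ 3 = ρ + 1) (hm : 1 ≤ m) (hn : 1 ≤ n) (hmn : m + n = 3)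
    (hNm : IsNorm Nm) (hNn : IsNorm Nn) (h1 : m = 2 → NearTwoForms Nm)
    (h2 : n = 2 → NearTwoForms Nn) : ENNReal.ofReal (ρ ^ (1 / (m : ℝ))) < g Nm Nn := by
  obtain ⟨rfl, rfl⟩ | ⟨rfl, rfl⟩ : (m = 1 ∧ n = 2) ∨ (m = 2 ∧ n = 1) := by omega
  · have e : ρ ^ (1 / ((1 : ℕ) : ℝ)) = ρ := by simp
    rw [e]
    obtain ⟨f, g', h⟩ := h2 rfl
    exact (Pool.Agent.Work.MP_7453a1_ch.gt_par hρ hNn h hNm).1
  · have e : ρ ^ (1 / ((2 : ℕ) : ℝ)) = √ρ := by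
      rw [Real.sqrt_eq_rpow]; norm_num
    rw [e]
    obtain ⟨f, g', h⟩ := h1 rfl
    exact (Pool.Agent.Work.MP_7453a1_ch.gt_par hρ hNm h hNn).2

end

/-- The case of fixed `m`, `n`: `m + n = 3`, arbitrary norms; `ρ = 1.32471…` is the real root of
`ρ³ = ρ + 1`.
1. The least value of `g` over all norms is `ρ ^ (1/m)`; it is attained.
2. For all norms `ρ ^ (1/m) ≤ g ≤ u ^ (1/m)` with `u = ρ ^ (38/25) = 1.5333…`, and
`G(Θ) ≤ u ^ (1/m)` for some `Θ` satisfying (∗); for every `Θ` satisfying (∗) there are infinitely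
many best approximation lengths `M₁ < M₂ < ⋯`, `M_ν ≥ c ρ ^ (ν/m)` with a positive `c` depending on
`Θ`, and, if `m = 1`, `M_{ν+4} ≥ M_{ν+2} + M_ν` for all large `ν`.
3. If the norm on the plane decreases under some linear map `T` with `T³ = T + 1`, or if it differs
from a Euclidean norm by a factor less than `√ρ = 1.1509…`, then `g = ρ ^ (1/m)`, and
`G(Θ) = ρ ^ (1/m)` for some `Θ` satisfying (∗).
4. If `g = ρ ^ (1/m)`, then the norm on the plane does not increase under some linear map `T` with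
`T³ = T + 1`.
5. If the norm on the plane differs from the maximum of the absolute values of two linear forms by
at most a factor `1.2246`, then `g > ρ ^ (1/m)`.
6. If it is such a maximum, then `t ^ (1/m) ≤ g ≤ v ^ (1/m)` with `t = 1.337 > ρ` and
`v = ρ ^ (7/5) = 1.4824…`, and `G(Θ) ≤ v ^ (1/m)` for some `Θ` satisfying (∗); in particular for
the sup norms. -/
theorem three (ρ : ℝ) (hρ : ρ ^ 3 = ρ + 1) (m n : ℕ) (hm : 1 ≤ m) (hn : 1 ≤ n)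
    (hmn : m + n = 3) :
    IsLeast {x | ∃ (Nm : Seminorm ℝ (Fin m → ℝ)) (Nn : Seminorm ℝ (Fin n → ℝ)),
      IsNorm Nm ∧ IsNorm Nn ∧ x = g Nm Nn} (ENNReal.ofReal (ρ ^ (1 / (m : ℝ)))) ∧
    (∀ (Nm : Seminorm ℝ (Fin m → ℝ)) (Nn : Seminorm ℝ (Fin n → ℝ)), IsNorm Nm → IsNorm Nn →
      (ENNReal.ofReal (ρ ^ (1 / (m : ℝ))) ≤ g Nm Nn ∧
        g Nm Nn ≤ ENNReal.ofReal (ρ ^ (38 / 25 / (m : ℝ))) ∧
        (∃ Θ : Matrix (Fin n) (Fin m) ℝ, Admissible Θ ∧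
          G Nm Nn Θ ≤ ENNReal.ofReal (ρ ^ (38 / 25 / (m : ℝ)))) ∧
        ∀ Θ : Matrix (Fin n) (Fin m) ℝ, Admissible Θ → (Lengths Nm Nn Θ).Infinite ∧
          (∃ c : ℝ, 0 < c ∧ ∀ ν : ℕ, 1 ≤ ν → c * (ρ ^ (1 / (m : ℝ))) ^ ν ≤ M Nm Nn Θ ν) ∧
          (m = 1 → ∃ ν₀ : ℕ, 1 ≤ ν₀ ∧ ∀ ν, ν₀ ≤ ν →
            M Nm Nn Θ (ν + 2) + M Nm Nn Θ ν ≤ M Nm Nn Θ (ν + 4))) ∧
      ((m = 2 → NearEuclid ρ Nm ∨ Decreases Nm) → (n = 2 → NearEuclid ρ Nn ∨ Decreases Nn) →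
        g Nm Nn = ENNReal.ofReal (ρ ^ (1 / (m : ℝ))) ∧
        ∃ Θ : Matrix (Fin n) (Fin m) ℝ, Admissible Θ ∧
          G Nm Nn Θ = ENNReal.ofReal (ρ ^ (1 / (m : ℝ)))) ∧
      (g Nm Nn = ENNReal.ofReal (ρ ^ (1 / (m : ℝ))) →
        (m = 2 → DoesNotIncrease Nm) ∧ (n = 2 → DoesNotIncrease Nn)) ∧
      ((m = 2 → NearTwoForms Nm) → (n = 2 → NearTwoForms Nn) →
        ENNReal.ofReal (ρ ^ (1 / (m : ℝ))) < g Nm Nn) ∧
      ((m = 2 → TwoForms Nm) → (n = 2 → TwoForms Nn) →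
        ENNReal.ofReal ((1337 / 1000) ^ (1 / (m : ℝ))) ≤ g Nm Nn ∧
        g Nm Nn ≤ ENNReal.ofReal (ρ ^ (7 / 5 / (m : ℝ))) ∧
        ∃ Θ : Matrix (Fin n) (Fin m) ℝ, Admissible Θ ∧
          G Nm Nn Θ ≤ ENNReal.ofReal (ρ ^ (7 / 5 / (m : ℝ))))) ∧
    ρ < 1337 / 1000 ∧
    ENNReal.ofReal ((1337 / 1000) ^ (1 / (m : ℝ))) ≤
      g (normSeminorm ℝ (Fin m → ℝ)) (normSeminorm ℝ (Fin n → ℝ)) ∧
    g (normSeminorm ℝ (Fin m → ℝ)) (normSeminorm ℝ (Fin n → ℝ)) ≤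
      ENNReal.ofReal (ρ ^ (7 / 5 / (m : ℝ))) := by
  have hlow : ∀ (Nm : Seminorm ℝ (Fin m → ℝ)) (Nn : Seminorm ℝ (Fin n → ℝ)), IsNorm Nm →
      IsNorm Nn → ENNReal.ofReal (ρ ^ (1 / (m : ℝ))) ≤ g Nm Nn := fun Nm Nn h1 h2 =>
    le_iInf₂ fun Θ hΘ => (lower hρ hm hn hmn h1 h2 Θ hΘ).1
  have hex : ∀ (Nm : Seminorm ℝ (Fin m → ℝ)) (Nn : Seminorm ℝ (Fin n → ℝ)), IsNorm Nm →
      IsNorm Nn → (m = 2 → NearEuclid ρ Nm ∨ Decreases Nm) →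
      (n = 2 → NearEuclid ρ Nn ∨ Decreases Nn) →
        g Nm Nn = ENNReal.ofReal (ρ ^ (1 / (m : ℝ))) ∧
        ∃ Θ : Matrix (Fin n) (Fin m) ℝ, Admissible Θ ∧
          G Nm Nn Θ = ENNReal.ofReal (ρ ^ (1 / (m : ℝ))) := by
    intro Nm Nn h1 h2 h3 h4
    obtain ⟨Θ, k1, k2⟩ := (upper hρ hm hn hmn h1 h2).2.1 h3 h4
    exact ⟨le_antisymm (iInf₂_le_of_le Θ k1 k2) (hlow Nm Nn h1 h2), Θ, k1,
      le_antisymm k2 (lower hρ hm hn hmn h1 h2 Θ k1).1⟩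
  have hpar : ∀ (Nm : Seminorm ℝ (Fin m → ℝ)) (Nn : Seminorm ℝ (Fin n → ℝ)), IsNorm Nm →
      IsNorm Nn → (m = 2 → TwoForms Nm) → (n = 2 → TwoForms Nn) →
        ENNReal.ofReal ((1337 / 1000) ^ (1 / (m : ℝ))) ≤ g Nm Nn ∧
        g Nm Nn ≤ ENNReal.ofReal (ρ ^ (7 / 5 / (m : ℝ))) ∧
        ∃ Θ : Matrix (Fin n) (Fin m) ℝ, Admissible Θ ∧
          G Nm Nn Θ ≤ ENNReal.ofReal (ρ ^ (7 / 5 / (m : ℝ))) := by
    intro Nm Nn h1 h2 h3 h4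
    obtain ⟨Θ, k1, k2⟩ := (upper hρ hm hn hmn h1 h2).2.2 h3 h4
    exact ⟨lower_par hm hn hmn h1 h2 h3 h4, iInf₂_le_of_le Θ k1 k2, Θ, k1, k2⟩
  have hsup := hpar _ _ (isNorm_sup m) (isNorm_sup n) (by rintro rfl; exact twoForms_two)
    (by rintro rfl; exact twoForms_two)
  refine ⟨⟨⟨Eu m, Eu n, isNorm_Eu m, isNorm_Eu n, ?_⟩, ?_⟩, fun Nm Nn h1 h2 =>
    ⟨⟨hlow Nm Nn h1 h2, ?_⟩, hex Nm Nn h1 h2, converse hρ hm hn hmn h1 h2,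
      larger hρ hm hn hmn h1 h2, hpar Nm Nn h1 h2⟩, ?_, hsup.1, hsup.2.1⟩
  · exact (hex _ _ (isNorm_Eu m) (isNorm_Eu n) (fun _ => Or.inl (near_Eu (one_lt_rho hρ) m))
      (fun _ => Or.inl (near_Eu (one_lt_rho hρ) n))).1.symm
  · rintro x ⟨Nm, Nn, h1, h2, rfl⟩
    exact hlow Nm Nn h1 h2
  · obtain ⟨Θ, k1, k2⟩ := (upper hρ hm hn hmn h1 h2).1
    exact ⟨iInf₂_le_of_le Θ k1 k2, ⟨Θ, k1, k2⟩, fun Θ hΘ => (lower hρ hm hn hmn h1 h2 Θ hΘ).2⟩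
  · have := (Pool.Agent.Work.MP_7453a1_nt.rho_bounds hρ).2
    norm_num at this ⊢
    linarith

/-- `ρ = 1.32471…` is the real root of `ρ³ = ρ + 1`. Let `m + n = 3`, with arbitrary norms on `ℝᵐ`
and `ℝⁿ`.
1. The least value of `g` over all norms is `ρ ^ (1/m)`; it is attained.
2. For all norms `ρ ^ (1/m) ≤ g ≤ u ^ (1/m)` with `u = ρ ^ (38/25) = 1.5333…`, and
`G(Θ) ≤ u ^ (1/m)` for some `Θ` satisfying (∗); for every `Θ` satisfying (∗) there are infinitely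
many best approximation lengths `M₁ < M₂ < ⋯`, `M_ν ≥ c ρ ^ (ν/m)` with a positive `c` depending on
`Θ`, and, if `m = 1`, `M_{ν+4} ≥ M_{ν+2} + M_ν` for all large `ν`.
3. If the norm on the plane decreases under some linear map `T` with `T³ = T + 1`, or if it differs
from a Euclidean norm by a factor less than `√ρ = 1.1509…`, then `g = ρ ^ (1/m)`, and
`G(Θ) = ρ ^ (1/m)` for some `Θ` satisfying (∗).
4. If `g = ρ ^ (1/m)`, then the norm on the plane does not increase under some linear map `T` with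
`T³ = T + 1`.
5. If the norm on the plane differs from the maximum of the absolute values of two linear forms by
at most a factor `1.2246`, then `g > ρ ^ (1/m)`.
6. If it is such a maximum, then `t ^ (1/m) ≤ g ≤ v ^ (1/m)` with `t = 1.337 > ρ` and
`v = ρ ^ (7/5) = 1.4824…`, and `G(Θ) ≤ v ^ (1/m)` for some `Θ` satisfying (∗); in particular for
the sup norms.
7. For the `ℓᵖ` norm on the plane, `p ≥ 1`: `g = ρ` for `m = 1` and `g = √ρ` for `m = 2` if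
`10/7 ≤ p ≤ 10/3`; `g > ρ` for `m = 1` and `g > √ρ` for `m = 2` if `p ≤ 24/17` or `p ≥ 24/7`. -/
theorem result (ρ : ℝ) (hρ : ρ ^ 3 = ρ + 1) :
    (∀ m n : ℕ, 1 ≤ m → 1 ≤ n → m + n = 3 →
      IsLeast {x | ∃ (Nm : Seminorm ℝ (Fin m → ℝ)) (Nn : Seminorm ℝ (Fin n → ℝ)),
        IsNorm Nm ∧ IsNorm Nn ∧ x = g Nm Nn} (ENNReal.ofReal (ρ ^ (1 / (m : ℝ)))) ∧
      (∀ (Nm : Seminorm ℝ (Fin m → ℝ)) (Nn : Seminorm ℝ (Fin n → ℝ)), IsNorm Nm → IsNorm Nn →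
        (ENNReal.ofReal (ρ ^ (1 / (m : ℝ))) ≤ g Nm Nn ∧
          g Nm Nn ≤ ENNReal.ofReal (ρ ^ (38 / 25 / (m : ℝ))) ∧
          (∃ Θ : Matrix (Fin n) (Fin m) ℝ, Admissible Θ ∧
            G Nm Nn Θ ≤ ENNReal.ofReal (ρ ^ (38 / 25 / (m : ℝ)))) ∧
          ∀ Θ : Matrix (Fin n) (Fin m) ℝ, Admissible Θ → (Lengths Nm Nn Θ).Infinite ∧
            (∃ c : ℝ, 0 < c ∧ ∀ ν : ℕ, 1 ≤ ν → c * (ρ ^ (1 / (m : ℝ))) ^ ν ≤ M Nm Nn Θ ν) ∧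
            (m = 1 → ∃ ν₀ : ℕ, 1 ≤ ν₀ ∧ ∀ ν, ν₀ ≤ ν →
              M Nm Nn Θ (ν + 2) + M Nm Nn Θ ν ≤ M Nm Nn Θ (ν + 4))) ∧
        ((m = 2 → NearEuclid ρ Nm ∨ Decreases Nm) → (n = 2 → NearEuclid ρ Nn ∨ Decreases Nn) →
          g Nm Nn = ENNReal.ofReal (ρ ^ (1 / (m : ℝ))) ∧
          ∃ Θ : Matrix (Fin n) (Fin m) ℝ, Admissible Θ ∧
            G Nm Nn Θ = ENNReal.ofReal (ρ ^ (1 / (m : ℝ)))) ∧
        (g Nm Nn = ENNReal.ofReal (ρ ^ (1 / (m : ℝ))) →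
          (m = 2 → DoesNotIncrease Nm) ∧ (n = 2 → DoesNotIncrease Nn)) ∧
        ((m = 2 → NearTwoForms Nm) → (n = 2 → NearTwoForms Nn) →
          ENNReal.ofReal (ρ ^ (1 / (m : ℝ))) < g Nm Nn) ∧
        ((m = 2 → TwoForms Nm) → (n = 2 → TwoForms Nn) →
          ENNReal.ofReal ((1337 / 1000) ^ (1 / (m : ℝ))) ≤ g Nm Nn ∧
          g Nm Nn ≤ ENNReal.ofReal (ρ ^ (7 / 5 / (m : ℝ))) ∧
          ∃ Θ : Matrix (Fin n) (Fin m) ℝ, Admissible Θ ∧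
            G Nm Nn Θ ≤ ENNReal.ofReal (ρ ^ (7 / 5 / (m : ℝ))))) ∧
      ρ < 1337 / 1000 ∧
      ENNReal.ofReal ((1337 / 1000) ^ (1 / (m : ℝ))) ≤
        g (normSeminorm ℝ (Fin m → ℝ)) (normSeminorm ℝ (Fin n → ℝ)) ∧
      g (normSeminorm ℝ (Fin m → ℝ)) (normSeminorm ℝ (Fin n → ℝ)) ≤
        ENNReal.ofReal (ρ ^ (7 / 5 / (m : ℝ)))) ∧
    ∀ p : ℝ, 1 ≤ p → ∃ N : Seminorm ℝ (Fin 2 → ℝ),
      (∀ x, N x = (|x 0| ^ p + |x 1| ^ p) ^ (1 / p)) ∧ IsNorm N ∧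
      ∀ N₁ : Seminorm ℝ (Fin 1 → ℝ), IsNorm N₁ →
        (10 / 7 ≤ p → p ≤ 10 / 3 →
          g N₁ N = ENNReal.ofReal ρ ∧ g N N₁ = ENNReal.ofReal √ρ) ∧
        (p ≤ 24 / 17 ∨ 24 / 7 ≤ p →
          ENNReal.ofReal ρ < g N₁ N ∧ ENNReal.ofReal √ρ < g N N₁) := by
  refine ⟨fun m n hm hn hmn => three ρ hρ m n hm hn hmn, fun p hp =>
    ⟨Pool.Agent.Work.MP_7453a1_an.lpN p hp, fun x => rfl,
      Pool.Agent.Work.MP_7453a1_ch.lp_isNorm p hp, fun N₁ hN₁ => ⟨fun h1 h2 => ?_, fun h => ?_⟩⟩⟩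
  · obtain ⟨N, hN, hn, A, d, hd, hA⟩ := Pool.Agent.Work.MP_7453a1_an.lp_near p h1 h2
    obtain rfl : Pool.Agent.Work.MP_7453a1_an.lpN p hp = N := by
      ext x
      rw [hN]
      rfl
    have hE : NearEuclid ρ (Pool.Agent.Work.MP_7453a1_an.lpN p hp) := by
      refine ⟨A, d, ?_, hA⟩
      have := (Pool.Agent.Work.MP_7453a1_nt.rho_bounds hρ).1
      norm_num at this hd
      linarith
    constructor
    · have h := ((three ρ hρ 1 2 le_rfl (by norm_num) rfl).2.1 N₁ _ hN₁ hn).2.1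
        (fun h => absurd h (by norm_num)) (fun _ => Or.inl hE)
      have e : ρ ^ (1 / ((1 : ℕ) : ℝ)) = ρ := by simp
      rw [e] at h
      exact h.1
    · have h := ((three ρ hρ 2 1 (by norm_num) le_rfl rfl).2.1 _ N₁ hn hN₁).2.1
        (fun _ => Or.inl hE) (fun h => absurd h (by norm_num))
      have e : ρ ^ (1 / ((2 : ℕ) : ℝ)) = √ρ := by
        rw [Real.sqrt_eq_rpow]; norm_num
      rw [e] at h
      exact h.1
  · obtain ⟨f, g', d, hd, hfg⟩ := Pool.Agent.Work.MP_7453a1_ch.lp_par p hp h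
    refine Pool.Agent.Work.MP_7453a1_ch.gt_par hρ (Pool.Agent.Work.MP_7453a1_ch.lp_isNorm p hp)
      (f := f) (g' := g') (fun x => ⟨(hfg x).1, (hfg x).2.trans ?_⟩) hN₁
    exact mul_le_mul_of_nonneg_right hd (le_max_of_le_left (abs_nonneg _))

end Pool.Agent.Results.MP_7453a1_nt.LagariasThree
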