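import Pool.Agent.Work.MP_7453a1_nt_two.Sym12
import Pool.Agent.Work.MP_7453a1_ne.All

set_option autoImplicit false

/-!
Best approximations for `m + n = 3` and the norms on the plane with a linear isometry of order three,
or nearly Euclidean.
-/

namespace Pool.Agent.Results.MP_7453a1_nt.SymmetricExact

open Pool.Agent.Work.MP_7453a1_nt_two Matrix
open Pool.Agent.Work.MP_7453a1_nt_norm (IsNorm)
open Pool.NE (NearlyEuclidean)

lemma mul_zero' (a b c d : ℝ) (x : Fin 2 → ℝ) : (!![a, b; c, d] *ᵥ x) 0 = a * x 0 + b * x 1 := by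
  simp [Matrix.mulVec, dotProduct, Fin.sum_univ_two]

lemma mul_one' (a b c d : ℝ) (x : Fin 2 → ℝ) : (!![a, b; c, d] *ᵥ x) 1 = c * x 0 + d * x 1 := by
  simp [Matrix.mulVec, dotProduct, Fin.sum_univ_two]

lemma iter {N : Seminorm ℝ (Fin 2 → ℝ)} {A : Matrix (Fin 2) (Fin 2) ℝ}
    (hA : ∀ x, N (A *ᵥ x) = N x) (h3 : A ^ 3 = 1) (h1 : A ≠ 1) :
    (∀ z, N (A.mulVecLin z) = N z) ∧
      (∀ z, A.mulVecLin (A.mulVecLin (A.mulVecLin z)) = z) ∧ ∃ z, A.mulVecLin z ≠ z := by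
  refine ⟨fun z => by rw [Matrix.mulVecLin_apply]; exact hA z, fun z => ?_, ?_⟩
  · simp only [Matrix.mulVecLin_apply, Matrix.mulVec_mulVec]
    rw [show A * (A * A) = A ^ 3 by rw [pow_succ', pow_two], h3, Matrix.one_mulVec]
  · by_contra hcon
    push Not at hcon
    refine h1 (Matrix.ext fun i j => ?_)
    have h4 := congrFun (hcon (Pi.single j 1)) i
    rw [Matrix.mulVecLin_apply, Matrix.mulVec_single_one] at h4
    rw [Matrix.one_apply, ← Pi.single_apply, ← h4]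
    rfl

lemma no_one {A : Matrix (Fin 1) (Fin 1) ℝ} (h3 : A ^ 3 = 1) : A = 1 := by
  ext i j
  have hi : i = 0 := Subsingleton.elim _ _
  have hj : j = 0 := Subsingleton.elim _ _
  subst hi hj
  have h := congrFun (congrFun h3 0) 0
  have e : (A ^ 3) 0 0 = A 0 0 ^ 3 := by
    simp [pow_succ, Matrix.mul_apply]
  rw [e, Matrix.one_apply_eq] at h
  rw [Matrix.one_apply_eq]
  have h5 : (A 0 0 - 1) * ((A 0 0 + 1 / 2) ^ 2 + 3 / 4) = 0 := by
    linear_combination h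
  rcases mul_eq_zero.mp h5 with h6 | h6
  · linarith
  · exfalso
    nlinarith [sq_nonneg (A 0 0 + 1 / 2)]

/-- the norm has a linear isometry of order three -/
def ThreeFold {k : ℕ} (N : Seminorm ℝ (Fin k → ℝ)) : Prop :=
  ∃ A : Matrix (Fin k) (Fin k) ℝ, (∀ x, N (A *ᵥ x) = N x) ∧ A ^ 3 = 1 ∧ A ≠ 1

/-- `m + n = 3`. Let `ρ = 1.3247…` be the real root of `ρ³ = ρ + 1`. For all norms `Nm` on `ℝᵐ` and
`Nn` on `ℝⁿ` such that `Nm` or `Nn` (the one on the plane) has a linear isometry `A` of order three,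
or the one on the plane satisfies `N x ^ 2 ≤ |A x| ^ 2 ≤ 1.004 N x ^ 2` with a linear map `A` and the
Euclidean norm `| |`: `g = ρ ^ (1/m)`, the infimum is attained, and for every `Θ` satisfying (∗)
there are infinitely many best approximation lengths, `M_ν ≥ c ρ ^ (ν/m)` with a positive `c`
depending on `Θ` and, if `m = 1` and `Nn` has a linear isometry of order three, for all large `ν` at
least one of `M_{ν+5} ≥ M_{ν+3} + M_{ν+2}`, `M_{ν+5} ≥ M_{ν+4} + M_ν` holds. In particular `g = ρ`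
for `m = 1` and `g = √ρ` for `m = 2`, if the norm on the plane is the Euclidean norm or the norm
`max (|x|, |y|, |x + y|)`. -/
theorem result (ρ : ℝ) (hρ : ρ ^ 3 = ρ + 1) :
    (∀ (m n : ℕ), 1 ≤ m → 1 ≤ n → m + n = 3 →
      ∀ (Nm : Seminorm ℝ (Fin m → ℝ)) (Nn : Seminorm ℝ (Fin n → ℝ)), IsNorm Nm → IsNorm Nn →
      (ThreeFold Nm ∨ ThreeFold Nn ∨ NearlyEuclidean Nm ∨ NearlyEuclidean Nn) →
      g Nm Nn = ENNReal.ofReal (ρ ^ (1 / (m : ℝ))) ∧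
      (∃ Θ : Matrix (Fin n) (Fin m) ℝ, Admissible Θ ∧
        G Nm Nn Θ = ENNReal.ofReal (ρ ^ (1 / (m : ℝ)))) ∧
      ∀ Θ : Matrix (Fin n) (Fin m) ℝ, Admissible Θ → (Lengths Nm Nn Θ).Infinite ∧
        (∃ c : ℝ, 0 < c ∧ ∀ ν : ℕ, 1 ≤ ν → c * (ρ ^ (1 / (m : ℝ))) ^ ν ≤ M Nm Nn Θ ν) ∧
        (m = 1 → ThreeFold Nn → ∃ ν₀ : ℕ, 1 ≤ ν₀ ∧ ∀ ν, ν₀ ≤ ν →
          M Nm Nn Θ (ν + 3) + M Nm Nn Θ (ν + 2) ≤ M Nm Nn Θ (ν + 5) ∨
            M Nm Nn Θ (ν + 4) + M Nm Nn Θ ν ≤ M Nm Nn Θ (ν + 5))) ∧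
    (∃ N : Seminorm ℝ (Fin 2 → ℝ), (∀ x, N x = √(x 0 ^ 2 + x 1 ^ 2)) ∧
      ∀ N₁ : Seminorm ℝ (Fin 1 → ℝ), IsNorm N₁ →
        g N₁ N = ENNReal.ofReal ρ ∧ g N N₁ = ENNReal.ofReal √ρ) ∧
    (∃ N : Seminorm ℝ (Fin 2 → ℝ), (∀ x, N x = max (max |x 0| |x 1|) |x 0 + x 1|) ∧
      ∀ N₁ : Seminorm ℝ (Fin 1 → ℝ), IsNorm N₁ →
        g N₁ N = ENNReal.ofReal ρ ∧ g N N₁ = ENNReal.ofReal √ρ) := by
  have e1 : ρ ^ (1 / ((1 : ℕ) : ℝ)) = ρ := by simp
  have e2 : ρ ^ (1 / ((2 : ℕ) : ℝ)) = √ρ := by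
    rw [Real.sqrt_eq_rpow]; norm_num
  -- the two cases
  have key : ∀ (N : Seminorm ℝ (Fin 2 → ℝ)) (N₁ : Seminorm ℝ (Fin 1 → ℝ))
      (A : Matrix (Fin 2) (Fin 2) ℝ), IsNorm N → IsNorm N₁ →
      (∀ x, N (A *ᵥ x) = N x) → A ^ 3 = 1 → A ≠ 1 →
      g N₁ N = ENNReal.ofReal ρ ∧ g N N₁ = ENNReal.ofReal √ρ := by
    intro N N₁ A hN hN₁ hA h3 h1
    obtain ⟨k1, k2, k3⟩ := iter hA h3 h1
    exact ⟨(exact_sym12 hN hN₁ hρ k1 k2 k3).1, (exact_sym2 hN hN₁ hρ k1 k2 k3).1⟩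
  refine ⟨?_, ?_, ?_⟩
  · intro m n hm hn hmn Nm Nn hNm hNn hA
    obtain ⟨rfl, rfl⟩ | ⟨rfl, rfl⟩ : (m = 1 ∧ n = 2) ∨ (m = 2 ∧ n = 1) := by omega
    · rw [e1]
      have six : ThreeFold Nn → _ := fun ⟨A, hA, h3, h1⟩ =>
        have k := iter hA h3 h1
        exact_sym12 hNn hNm hρ k.1 k.2.1 k.2.2
      rcases hA with ⟨A, _, h3, h1⟩ | hA | ⟨h, _⟩ | hA
      · exact absurd (no_one h3) h1
      · obtain ⟨j1, j2, j3⟩ := six hA
        exact ⟨j1, j2, fun Θ hΘ => ⟨(j3 Θ hΘ).1, (j3 Θ hΘ).2.1, fun _ _ => (j3 Θ hΘ).2.2⟩⟩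
      · exact absurd h (by norm_num)
      · obtain ⟨j1, j2, j3⟩ := Pool.NE.exact_near12 hρ hNn hNm hA
        exact ⟨j1, j2, fun Θ hΘ => ⟨(j3 Θ hΘ).1, (j3 Θ hΘ).2,
          fun _ hT => ((six hT).2.2 Θ hΘ).2.2⟩⟩
    · rcases hA with ⟨A, hA, h3, h1⟩ | ⟨A, _, h3, h1⟩ | hA | ⟨h, _⟩
      · rw [e2]
        obtain ⟨k1, k2, k3⟩ := iter hA h3 h1
        obtain ⟨j1, j2, j3⟩ := exact_sym2 hNm hNn hρ k1 k2 k3
        exact ⟨j1, j2, fun Θ hΘ => ⟨infinite_lengths hNm hNn hΘ, j3 Θ hΘ,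
          fun h => absurd h (by norm_num)⟩⟩
      · exact absurd (no_one h3) h1
      · obtain ⟨j1, j2, j3⟩ := Pool.NE.exact_near21 hρ hNm hNn hA
        push_cast
        exact ⟨j1, j2, fun Θ hΘ => ⟨(j3 Θ hΘ).1, (j3 Θ hΘ).2, fun h => absurd h (by norm_num)⟩⟩
      · exact absurd h (by norm_num)
  · -- the Euclidean norm
    have h3 : √3 ^ 2 = 3 := Real.sq_sqrt (by norm_num)
    set N : Seminorm ℝ (Fin 2 → ℝ) := (normSeminorm ℝ (EuclideanSpace ℝ (Fin 2))).comp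
      (WithLp.linearEquiv 2 ℝ (Fin 2 → ℝ)).symm.toLinearMap with hN
    have val : ∀ x, N x = √(x 0 ^ 2 + x 1 ^ 2) := by
      intro x
      show ‖(WithLp.linearEquiv 2 ℝ (Fin 2 → ℝ)).symm x‖ = _
      rw [EuclideanSpace.norm_eq]
      simp [Fin.sum_univ_two]
    refine ⟨N, val, fun N₁ hN₁ =>
      key N N₁ !![-1 / 2, -(√3 / 2); √3 / 2, -1 / 2] ?_ hN₁ ?_ ?_ ?_⟩
    · intro x hx
      rw [val, Real.sqrt_eq_zero (by positivity)] at hx
      have h0 : x 0 = 0 := by nlinarith [sq_nonneg (x 0), sq_nonneg (x 1)]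
      have h1 : x 1 = 0 := by nlinarith [sq_nonneg (x 0), sq_nonneg (x 1)]
      ext i; fin_cases i
      · exact h0
      · exact h1
    · intro x
      rw [val, val, mul_zero', mul_one']
      congr 1
      linear_combination ((x 0 ^ 2 + x 1 ^ 2) / 4) * h3
    · ext i j
      fin_cases i <;> fin_cases j
      · simp [pow_succ, Matrix.mul_apply, Fin.sum_univ_two]
        linear_combination (3 / 8) * h3
      · simp [pow_succ, Matrix.mul_apply, Fin.sum_univ_two]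
        linear_combination (√3 / 8) * h3
      · simp [pow_succ, Matrix.mul_apply, Fin.sum_univ_two]
        linear_combination (-√3 / 8) * h3
      · simp [pow_succ, Matrix.mul_apply, Fin.sum_univ_two]
        linear_combination (3 / 8) * h3
    · intro h
      have := congrFun (congrFun h 0) 0
      norm_num at this
  · -- the hexagonal norm
    set N : Seminorm ℝ (Fin 2 → ℝ) :=
      ((normSeminorm ℝ ℝ).comp (LinearMap.proj 0 : (Fin 2 → ℝ) →ₗ[ℝ] ℝ) ⊔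
        (normSeminorm ℝ ℝ).comp (LinearMap.proj 1 : (Fin 2 → ℝ) →ₗ[ℝ] ℝ)) ⊔
      (normSeminorm ℝ ℝ).comp
        ((LinearMap.proj 0 : (Fin 2 → ℝ) →ₗ[ℝ] ℝ) + (LinearMap.proj 1 : (Fin 2 → ℝ) →ₗ[ℝ] ℝ))
      with hN
    have val : ∀ x, N x = max (max |x 0| |x 1|) |x 0 + x 1| := by
      intro x
      simp [hN, Seminorm.sup_apply, Seminorm.comp_apply]
    refine ⟨N, val, fun N₁ hN₁ => key N N₁ !![0, 1; -1, -1] ?_ hN₁ ?_ ?_ ?_⟩
    · intro x hx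
      rw [val] at hx
      have h0 : |x 0| ≤ 0 := by rw [← hx]; exact le_max_of_le_left (le_max_left _ _)
      have h1 : |x 1| ≤ 0 := by rw [← hx]; exact le_max_of_le_left (le_max_right _ _)
      ext i; fin_cases i
      · exact abs_nonpos_iff.mp h0
      · exact abs_nonpos_iff.mp h1
    · intro x
      rw [val, val, mul_zero', mul_one']
      have e1 : |0 * x 0 + 1 * x 1| = |x 1| := by congr 1; ring
      have e2 : |-1 * x 0 + -1 * x 1| = |x 0 + x 1| := by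
        rw [← abs_neg]; congr 1; ring
      have e3 : |0 * x 0 + 1 * x 1 + (-1 * x 0 + -1 * x 1)| = |x 0| := by
        rw [← abs_neg]; congr 1; ring
      rw [e1, e2, e3]
      rw [max_comm, ← max_assoc]
    · ext i j
      fin_cases i <;> fin_cases j <;>
        simp [pow_succ, Matrix.mul_apply, Fin.sum_univ_two]
    · intro h
      have := congrFun (congrFun h 0) 0
      norm_num at this

end Pool.Agent.Results.MP_7453a1_nt.SymmetricExact
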